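import Pool.Agent.H923R2.FZ.Stubs1

/-! FACT: a factorisation (MP_118406_an, project FZ). -/

set_option autoImplicit false

open Filter Topology

namespace Pool.Agent.H923R2.FZ.T_FACT


theorem sqrt_key {s d : ℝ} (hs : 0 ≤ s) (hd : 0 < d) :
    |s * (√(s + d))⁻¹ - √s| ≤ √d := by
  set p := √s with hp
  set q := √(s + d) with hq
  have hp0 : 0 ≤ p := Real.sqrt_nonneg _
  have hq0 : 0 < q := Real.sqrt_pos.2 (by linarith)
  have hp2 : p * p = s := Real.mul_self_sqrt hs
  have hq2 : q * q = s + d := Real.mul_self_sqrt (by linarith)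
  have hd0 : 0 ≤ √d := Real.sqrt_nonneg _
  have hd2 : √d * √d = d := Real.mul_self_sqrt hd.le
  have hpq : p ≤ q := Real.sqrt_le_sqrt (by linarith)
  have hqd : q ≤ p + √d := by nlinarith [mul_nonneg hp0 hd0]
  have h1 : s * q⁻¹ - p = -(p * (q - p) * q⁻¹) := by
    field_simp
    nlinarith
  rw [h1, abs_neg, abs_of_nonneg (by have := sub_nonneg.2 hpq; positivity)]
  have h2 : p * q⁻¹ ≤ 1 := by
    rw [← div_eq_mul_inv, div_le_one hq0]; exact hpq
  calc p * (q - p) * q⁻¹ = (p * q⁻¹) * (q - p) := by ring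
    _ ≤ 1 * (q - p) := mul_le_mul_of_nonneg_right h2 (by linarith)
    _ ≤ √d := by linarith

variable {B : Type*} [CStarAlgebra B] [PartialOrder B] [StarOrderedRing B]

theorem spec_nn {a : B} (ha : 0 ≤ a) {s : ℝ} (hs : s ∈ spectrum ℝ a) : 0 ≤ s :=
  spectrum_nonneg_of_nonneg ha hs

theorem normbd {a T : B} (ha : 0 ≤ a) (hT : IsSelfAdjoint T) {C : ℝ} (hC : 0 ≤ C)
    (h : T * T ≤ C • a) {φ : ℝ → ℝ} (hφ : ContinuousOn φ (spectrum ℝ a)) {K : ℝ} (hK : 0 ≤ K)
    (hb : ∀ s ∈ spectrum ℝ a, s * φ s ^ 2 ≤ K) : ‖cfc φ a * T‖ ^ 2 ≤ C * K := by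
  have hsa : IsSelfAdjoint a := .of_nonneg ha
  have hf : IsSelfAdjoint (cfc φ a) := cfc_predicate φ a
  have e1 : ‖cfc φ a * T‖ ^ 2 = ‖cfc φ a * (T * T) * cfc φ a‖ := by
    rw [pow_two, ← CStarRing.norm_self_mul_star, star_mul, hT.star_eq, hf.star_eq]
    simp only [mul_assoc]
  have h1 : 0 ≤ cfc φ a * (T * T) * cfc φ a := by
    have h0 : 0 ≤ T * T := hT.mul_self_nonneg
    exact hf.conjugate_nonneg h0
  have h2 : cfc φ a * (T * T) * cfc φ a ≤ cfc φ a * (C • a) * cfc φ a :=
    hf.conjugate_le_conjugate h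
  have e2 : cfc φ a * (C • a) * cfc φ a = C • cfc (fun s => φ s * s * φ s) a := by
    rw [cfc_mul (fun s => φ s * s) φ a (hφ.mul continuousOn_id) hφ,
      cfc_mul φ (fun s => s) a hφ continuousOn_id, cfc_id' ℝ a, mul_smul_comm, smul_mul_assoc]
  rw [e1]
  refine (CStarAlgebra.norm_le_norm_of_nonneg_of_le h1 h2).trans ?_
  rw [e2, norm_smul, Real.norm_of_nonneg hC]
  refine mul_le_mul_of_nonneg_left (norm_cfc_le hK fun s hs => ?_) hC
  have hs0 := spec_nn ha hs
  have := hb s hs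
  rw [Real.norm_of_nonneg (by nlinarith [mul_nonneg hs0 (sq_nonneg (φ s))])]
  nlinarith

theorem norm_y {y T : B} (hT : IsSelfAdjoint T) {g : ℝ → ℝ}
    (hg : ContinuousOn g (spectrum ℝ (star y * y))) :
    ‖y * (cfc g (star y * y) * T)‖ ^ 2 = ‖cfc (fun s => √s * g s) (star y * y) * T‖ ^ 2 := by
  have ha : 0 ≤ star y * y := star_mul_self_nonneg y
  have hsa : IsSelfAdjoint (star y * y) := .of_nonneg ha
  have hf : IsSelfAdjoint (cfc g (star y * y)) := cfc_predicate g _
  have hf2 : IsSelfAdjoint (cfc (fun s => √s * g s) (star y * y)) := cfc_predicate _ _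
  have hgs : ContinuousOn (fun s => √s * g s) (spectrum ℝ (star y * y)) :=
    Real.continuous_sqrt.continuousOn.mul hg
  rw [pow_two, ← CStarRing.norm_star_mul_self, pow_two, ← CStarRing.norm_star_mul_self]
  congr 1
  rw [star_mul, star_mul, star_mul, hT.star_eq, hf.star_eq, hf2.star_eq]
  have e1 : cfc g (star y * y) * (star y * y) * cfc g (star y * y) =
      cfc (fun s => √s * g s) (star y * y) * cfc (fun s => √s * g s) (star y * y) := by
    rw [← cfc_mul _ _ _ hgs hgs]
    nth_rewrite 2 [← cfc_id' ℝ (star y * y)]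
    rw [← cfc_mul g (fun s => s) _ hg continuousOn_id,
      ← cfc_mul (fun s => g s * s) g _ (hg.mul continuousOn_id) hg]
    refine cfc_congr fun s hs => ?_
    have hs0 := spec_nn ha hs
    have := Real.mul_self_sqrt hs0
    nth_rewrite 2 [← this]
    ring
  calc T * cfc g (star y * y) * star y * (y * (cfc g (star y * y) * T))
      = T * (cfc g (star y * y) * (star y * y) * cfc g (star y * y)) * T := by
        simp only [mul_assoc]
    _ = _ := by rw [e1]; simp only [mul_assoc]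

theorem contf {d : ℝ} (hd : 0 < d) {a : B} (ha : 0 ≤ a) :
    ContinuousOn (fun s : ℝ => (√(s + d))⁻¹) (spectrum ℝ a) := by
  apply ContinuousOn.inv₀
  · exact (Real.continuous_sqrt.comp (continuous_id.add continuous_const)).continuousOn
  · intro s hs
    have := spec_nn ha hs
    exact (Real.sqrt_pos.2 (by linarith)).ne'

/-- the approximants -/
noncomputable def xd (y T : B) (d : ℝ) : B := y * (cfc (fun s : ℝ => (√(s + d))⁻¹) (star y * y) * T)

theorem xd_sub {y T : B} (hT : IsSelfAdjoint T) {C : ℝ} (hC : 0 ≤ C)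
    (h : T * T ≤ C • (star y * y)) {d d' : ℝ} (hd : 0 < d) (hd' : 0 < d') :
    ‖xd y T d - xd y T d'‖ ^ 2 ≤ C * (√d + √d') ^ 2 := by
  have ha : 0 ≤ star y * y := star_mul_self_nonneg y
  have hsa : IsSelfAdjoint (star y * y) := .of_nonneg ha
  have c1 := contf (a := star y * y) hd ha
  have c2 := contf (a := star y * y) hd' ha
  have e1 : xd y T d - xd y T d' =
      y * (cfc (fun s : ℝ => (√(s + d))⁻¹ - (√(s + d'))⁻¹) (star y * y) * T) := by
    rw [cfc_sub _ _ _ c1 c2, sub_mul, mul_sub]; rfl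
  have c12 : ContinuousOn (fun s : ℝ => (√(s + d))⁻¹ - (√(s + d'))⁻¹)
      (spectrum ℝ (star y * y)) := c1.sub c2
  rw [e1, norm_y hT c12]
  refine normbd (φ := fun s : ℝ => √s * ((√(s + d))⁻¹ - (√(s + d'))⁻¹)) ha hT hC h
    (Real.continuous_sqrt.continuousOn.mul c12) (by positivity) ?_
  intro s hs
  have hs0 := spec_nn ha hs
  have e2 : s * (√s * ((√(s + d))⁻¹ - (√(s + d'))⁻¹)) ^ 2 =
      ((s * (√(s + d))⁻¹ - √s) - (s * (√(s + d'))⁻¹ - √s)) ^ 2 := by
    rw [_root_.mul_pow, Real.sq_sqrt hs0]; ring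
  rw [e2]
  apply sq_le_sq'
  · have h1 := abs_le.1 (sqrt_key hs0 hd)
    have h2 := abs_le.1 (sqrt_key hs0 hd')
    linarith
  · have h1 := abs_le.1 (sqrt_key hs0 hd)
    have h2 := abs_le.1 (sqrt_key hs0 hd')
    linarith

theorem xd_sq {y T : B} (hT : IsSelfAdjoint T) {C : ℝ} (hC : 0 ≤ C)
    (h : T * T ≤ C • (star y * y)) {d : ℝ} (hd : 0 < d) :
    ‖T * T - star (xd y T d) * xd y T d‖ ≤ C * d := by
  have ha : 0 ≤ star y * y := star_mul_self_nonneg y
  have hsa : IsSelfAdjoint (star y * y) := .of_nonneg ha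
  have c1 := contf (a := star y * y) hd ha
  set f : ℝ → ℝ := fun s : ℝ => (√(s + d))⁻¹ with hf
  set χ : ℝ → ℝ := fun s : ℝ => √d * (√(s + d))⁻¹ with hχ
  have c2 : ContinuousOn χ (spectrum ℝ (star y * y)) := continuousOn_const.mul c1
  have c22 : ContinuousOn (fun s => χ s * χ s) (spectrum ℝ (star y * y)) := c2.mul c2
  have sf : IsSelfAdjoint (cfc f (star y * y)) := cfc_predicate _ _
  have sχ : IsSelfAdjoint (cfc χ (star y * y)) := cfc_predicate _ _
  have e1 : cfc f (star y * y) * (star y * y) * cfc f (star y * y) =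
      1 - cfc χ (star y * y) * cfc χ (star y * y) := by
    rw [← cfc_mul _ _ _ c2 c2]
    nth_rewrite 2 [← cfc_id' ℝ (star y * y)]
    rw [← cfc_mul f (fun s => s) _ c1 continuousOn_id,
      ← cfc_mul (fun s => f s * s) f _ (c1.mul continuousOn_id) c1,
      ← cfc_const_one ℝ (star y * y),
      ← cfc_sub (fun _ => (1 : ℝ)) (fun s => χ s * χ s) _ continuousOn_const c22]
    refine cfc_congr fun s hs => ?_
    have hs0 := spec_nn ha hs
    have hq : √(s + d) * √(s + d) = s + d := Real.mul_self_sqrt (by linarith)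
    have hdd : √d * √d = d := Real.mul_self_sqrt hd.le
    have hq0 : √(s + d) ≠ 0 := (Real.sqrt_pos.2 (by linarith)).ne'
    simp only [hf, hχ]
    field_simp
    nlinarith
  have e2 : T * T - star (xd y T d) * xd y T d =
      star (cfc χ (star y * y) * T) * (cfc χ (star y * y) * T) := by
    have : star (xd y T d) * xd y T d =
        T * (cfc f (star y * y) * (star y * y) * cfc f (star y * y)) * T := by
      have e0 : xd y T d = y * (cfc f (star y * y) * T) := rfl
      rw [e0, star_mul, star_mul, hT.star_eq, sf.star_eq]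
      simp only [mul_assoc]
    rw [this, e1, star_mul, hT.star_eq, sχ.star_eq]
    simp only [mul_sub, sub_mul, mul_one, mul_assoc, sub_sub_cancel]
  rw [e2, CStarRing.norm_star_mul_self, ← pow_two]
  refine normbd ha hT hC h c2 hd.le ?_
  intro s hs
  have hs0 := spec_nn ha hs
  have hq : √(s + d) ^ 2 = s + d := Real.sq_sqrt (by linarith)
  simp only [hχ]
  rw [_root_.mul_pow, Real.sq_sqrt hd.le, inv_pow, hq]
  have : s * (d * (s + d)⁻¹) = d * (s / (s + d)) := by ring
  rw [this]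
  have h1 : s / (s + d) ≤ 1 := (div_le_one (by linarith)).2 (by linarith)
  nlinarith

theorem exists_factor {y T : B} (hT : IsSelfAdjoint T) {C : ℝ} (hC : 0 ≤ C)
    (h : T * T ≤ C • (star y * y)) :
    ∃ x : B, star x * x = T * T ∧ ∀ k : B, k * y = y → k * x = x := by
  have hdpos : ∀ n : ℕ, (0 : ℝ) < 1 / ((n : ℝ) + 1) := fun n => by positivity
  have hd0 : Tendsto (fun n : ℕ => (1 : ℝ) / ((n : ℝ) + 1)) atTop (𝓝 0) :=
    tendsto_one_div_add_atTop_nhds_zero_nat
  have hs0 : Tendsto (fun n : ℕ => √((1 : ℝ) / ((n : ℝ) + 1))) atTop (𝓝 0) := by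
    have := (Real.continuous_sqrt.tendsto 0).comp hd0
    rwa [Real.sqrt_zero] at this
  have hmono : ∀ {n N : ℕ}, N ≤ n → √((1 : ℝ) / ((n : ℝ) + 1)) ≤ √((1 : ℝ) / ((N : ℝ) + 1)) := by
    intro n N hn
    apply Real.sqrt_le_sqrt
    apply one_div_le_one_div_of_le (by positivity)
    have : (N : ℝ) ≤ n := by exact_mod_cast hn
    linarith
  have hc : CauchySeq fun n : ℕ => xd y T (1 / ((n : ℝ) + 1)) := by
    refine cauchySeq_of_le_tendsto_0
      (fun N : ℕ => √C * (√((1 : ℝ) / ((N : ℝ) + 1)) + √((1 : ℝ) / ((N : ℝ) + 1)))) ?_ ?_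
    · intro n m N hn hm
      rw [dist_eq_norm]
      have h1 := xd_sub hT hC h (hdpos n) (hdpos m)
      have h2 : ‖xd y T (1 / ((n : ℝ) + 1)) - xd y T (1 / ((m : ℝ) + 1))‖ ≤
          √C * (√((1 : ℝ) / ((n : ℝ) + 1)) + √((1 : ℝ) / ((m : ℝ) + 1))) := by
        apply le_of_sq_le_sq _ (by positivity)
        rw [_root_.mul_pow, Real.sq_sqrt hC]
        exact h1
      refine h2.trans ?_
      have h3 := hmono hn
      have h4 := hmono hm
      gcongr
    · have := ((hs0.add hs0).const_mul (√C))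
      simpa using this
  obtain ⟨x, hx⟩ := cauchySeq_tendsto_of_complete hc
  refine ⟨x, ?_, ?_⟩
  · have h1 : Tendsto (fun n : ℕ => star (xd y T (1 / ((n : ℝ) + 1))) *
        xd y T (1 / ((n : ℝ) + 1))) atTop (𝓝 (star x * x)) := hx.star.mul hx
    have h2 : Tendsto (fun n : ℕ => star (xd y T (1 / ((n : ℝ) + 1))) *
        xd y T (1 / ((n : ℝ) + 1))) atTop (𝓝 (T * T)) := by
      rw [tendsto_iff_norm_sub_tendsto_zero]
      refine squeeze_zero (fun n => norm_nonneg _)
        (g := fun n : ℕ => C * (1 / ((n : ℝ) + 1))) ?_ ?_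
      · intro n
        rw [norm_sub_rev]
        exact xd_sq hT hC h (hdpos n)
      · simpa using hd0.const_mul C
    exact tendsto_nhds_unique h1 h2
  · intro k hk
    have h1 : Tendsto (fun n : ℕ => k * xd y T (1 / ((n : ℝ) + 1))) atTop (𝓝 (k * x)) :=
      hx.const_mul k
    have h2 : (fun n : ℕ => k * xd y T (1 / ((n : ℝ) + 1))) =
        fun n : ℕ => xd y T (1 / ((n : ℝ) + 1)) := by
      funext n
      unfold xd
      rw [← mul_assoc, hk]
    rw [h2] at h1
    exact tendsto_nhds_unique h1 hx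

theorem mul_sqrt_of {g g1 : B} (hg : 0 ≤ g) (h : g1 * g = g) :
    g1 * CFC.sqrt g = CFC.sqrt g := by
  have hs : IsSelfAdjoint (CFC.sqrt g) := .of_nonneg (CFC.sqrt_nonneg g)
  have h1 : (g1 * CFC.sqrt g - CFC.sqrt g) * star (g1 * CFC.sqrt g - CFC.sqrt g) = 0 := by
    rw [star_sub, star_mul, hs.star_eq]
    have : (g1 * CFC.sqrt g - CFC.sqrt g) * (CFC.sqrt g * star g1 - CFC.sqrt g) =
        (g1 * (CFC.sqrt g * CFC.sqrt g) - CFC.sqrt g * CFC.sqrt g) * star g1 -
          (g1 * (CFC.sqrt g * CFC.sqrt g) - CFC.sqrt g * CFC.sqrt g) := by noncomm_ring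
    rw [this, CFC.sqrt_mul_sqrt_self g, h]
    simp
  exact sub_eq_zero.1 (CStarRing.mul_star_self_eq_zero_iff _ |>.1 h1)

theorem fact2 {g g1 k U : B} (hg : 0 ≤ g) (hk : 0 ≤ k) (hU : U * star U = 1)
    (hg1 : IsSelfAdjoint g1) (hgg : g1 * g = g) (hn : ‖g1 * U * (1 - k)‖ < 1) :
    ∃ x : B, star x * x = g ∧ ∀ k1 : B, k1 * k = k → k1 * x = x := by
  set T := CFC.sqrt g with hTdef
  set S := CFC.sqrt k with hSdef
  have hT : IsSelfAdjoint T := .of_nonneg (CFC.sqrt_nonneg g)
  have hS : IsSelfAdjoint S := .of_nonneg (CFC.sqrt_nonneg k)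
  have hTT : T * T = g := CFC.sqrt_mul_sqrt_self g
  have hSS : S * S = k := CFC.sqrt_mul_sqrt_self k
  have hksa : IsSelfAdjoint k := .of_nonneg hk
  have hgT : g1 * T = T := mul_sqrt_of hg hgg
  have hTg : T * g1 = T := by
    have := congrArg star hgT
    rwa [star_mul, hT.star_eq, hg1.star_eq] at this
  set y : B := S * star U * T with hy
  set W : B := g1 * U * (1 - k) with hW
  set κ : ℝ := ‖W‖ with hκ
  have hκ0 : 0 ≤ κ := norm_nonneg _
  have hκ1 : 0 < 1 - κ ^ 2 := by nlinarith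
  have hyy : star y * y = T * U * k * star U * T := by
    rw [hy, star_mul, star_mul, star_star, hT.star_eq, hS.star_eq, ← hSS]
    noncomm_ring
  -- `W W* ≤ κ²`
  have hWW : W * star W ≤ (κ ^ 2) • (1 : B) := by
    have h1 : W * star W ≤ algebraMap ℝ B ‖W * star W‖ :=
      IsSelfAdjoint.le_algebraMap_norm_self (IsSelfAdjoint.mul_star_self W)
    rw [CStarRing.norm_self_mul_star, ← pow_two, Algebra.algebraMap_eq_smul_one] at h1
    exact h1
  have h1 : T * (W * star W) * T ≤ (κ ^ 2) • (T * T) := by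
    have := hT.conjugate_le_conjugate hWW
    rwa [mul_smul_comm, smul_mul_assoc, mul_one] at this
  have h2 : T * (W * star W) * T = T * U * (1 - k) * (1 - k) * star U * T := by
    have hsk : IsSelfAdjoint (1 - k) := (IsSelfAdjoint.one B).sub hksa
    rw [hW, star_mul, star_mul, hsk.star_eq, hg1.star_eq]
    calc T * (g1 * U * (1 - k) * ((1 - k) * (star U * g1))) * T
        = (T * g1) * U * (1 - k) * (1 - k) * star U * (g1 * T) := by noncomm_ring
      _ = _ := by rw [hTg, hgT]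
  have h3 : 0 ≤ T * U * (k * k) * star U * T := by
    have h0 : 0 ≤ k * k := hksa.mul_self_nonneg
    have := star_left_conjugate_nonneg h0 (star U * T)
    rw [star_mul, star_star, hT.star_eq] at this
    simpa only [mul_assoc] using this
  have h4 : (1 - κ ^ 2) • (T * T) ≤ (2 : ℝ) • (star y * y) := by
    have e1 : (2 : ℝ) • (star y * y) - (1 - κ ^ 2) • (T * T) =
        T * U * (k * k) * star U * T +
          ((κ ^ 2) • (T * T) - T * U * (1 - k) * (1 - k) * star U * T) := by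
      rw [hyy, two_smul, sub_smul, one_smul]
      have e2 : T * U * (1 - k) * (1 - k) * star U * T =
          T * (U * star U) * T - T * U * k * star U * T - T * U * k * star U * T +
            T * U * (k * k) * star U * T := by noncomm_ring
      rw [e2, hU, mul_one]
      abel
    rw [← sub_nonneg, e1]
    refine add_nonneg h3 (sub_nonneg.2 ?_)
    rw [← h2]; exact h1
  have h5 : T * T ≤ (2 / (1 - κ ^ 2)) • (star y * y) := by
    have := smul_le_smul_of_nonneg_left h4 (inv_nonneg.2 hκ1.le)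
    rw [smul_smul, smul_smul, inv_mul_cancel₀ hκ1.ne', one_smul] at this
    rwa [div_eq_mul_inv, mul_comm]
  obtain ⟨x, hx1, hx2⟩ := exists_factor hT (by positivity) h5
  refine ⟨x, hx1.trans hTT, fun k1 hk1 => hx2 k1 ?_⟩
  rw [hy, ← mul_assoc, ← mul_assoc, mul_sqrt_of hk hk1]

/-- FACT -/
theorem t_FACT : S_FACT := by
  intro B _ g g1 k U hg hg1 hk hgg hn
  let _ := CStarAlgebra.spectralOrder B
  let _ := CStarAlgebra.spectralOrderedRing B
  have nn : ∀ x : B, PC x → 0 ≤ x := by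
    intro x hx
    rw [← cfc_id ℝ x hx.1]
    exact cfc_nonneg fun s hs => (hx.2 hs).1
  exact fact2 (nn g hg) (nn k hk) (Unitary.coe_mul_star_self U) (hg1.1) hgg hn

end Pool.Agent.H923R2.FZ.T_FACT
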