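import Mathlib
import Pool.Agent.H922R2.OPC.Stubs

/-! Task NCN: a Keller map is nonconstant on the curves. -/

set_option autoImplicit false

open MvPolynomial

namespace Pool.Agent.H130.OPCN

open Pool.Agent.H922R2.OPC

section
variable {k : Type} [Field k]

/-- `t d/dt` -/
noncomputable def th (f : HahnSeries ℤ k) : HahnSeries ℤ k where
  coeff m := (m : k) * f.coeff m
  isPWO_support' := f.isPWO_support.mono (by
    intro i hi h0
    exact hi (by simp only [h0, mul_zero]))

theorem th_coeff (f : HahnSeries ℤ k) (m : ℤ) : (th f).coeff m = (m : k) * f.coeff m := rfl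

theorem th_supp (f : HahnSeries ℤ k) : (th f).support ⊆ f.support := by
  intro i hi h0
  exact hi (by rw [th_coeff, h0, mul_zero])

theorem th_add (f g : HahnSeries ℤ k) : th (f + g) = th f + th g := by
  ext m
  simp only [th_coeff, HahnSeries.coeff_add, mul_add]

theorem th_mul (f g : HahnSeries ℤ k) : th (f * g) = th f * g + f * th g := by
  ext m
  have h1 : (th f * g).coeff m = ∑ ij ∈ Finset.antidiagonal f.isPWO_support g.isPWO_support m,
      (th f).coeff ij.1 * g.coeff ij.2 :=
    HahnSeries.coeff_mul_left' f.isPWO_support (th_supp f)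
  have h2 : (f * th g).coeff m = ∑ ij ∈ Finset.antidiagonal f.isPWO_support g.isPWO_support m,
      f.coeff ij.1 * (th g).coeff ij.2 :=
    HahnSeries.coeff_mul_right' g.isPWO_support (th_supp g)
  rw [th_coeff, HahnSeries.coeff_add, h1, h2, HahnSeries.coeff_mul, ← Finset.sum_add_distrib,
    Finset.mul_sum]
  refine Finset.sum_congr rfl fun ij hij => ?_
  have h3 : ij.1 + ij.2 = m := (Finset.mem_antidiagonal.1 hij).2.2
  rw [th_coeff, th_coeff, ← h3]
  push_cast
  ring

theorem th_C (c : k) : th (HahnSeries.C c : HahnSeries ℤ k) = 0 := by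
  ext m
  rw [th_coeff, HahnSeries.C_apply]
  by_cases hm : m = 0
  · subst hm
    simp
  · rw [HahnSeries.coeff_single_of_ne hm]
    simp

/-- chain rule -/
theorem th_chain (ε : B k →+* HahnSeries ℤ k) (hε : ∀ c, th (ε (C c)) = 0) (h : B k) :
    th (ε h) = ε (pderiv 0 h) * th (ε (X 0)) + ε (pderiv 1 h) * th (ε (X 1)) := by
  induction h using MvPolynomial.induction_on with
  | C a => simp [hε]
  | add p q hp hq =>
    rw [map_add, th_add, hp, hq, map_add, map_add, map_add, map_add]
    ring
  | mul_X p i hp =>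
    have e0 : pderiv (0 : Fin 2) (p * X i) = pderiv 0 p * X i + p * pderiv 0 (X i) := by
      rw [Derivation.leibniz]
      simp only [smul_eq_mul]
      ring
    have e1 : pderiv (1 : Fin 2) (p * X i) = pderiv 1 p * X i + p * pderiv 1 (X i) := by
      rw [Derivation.leibniz]
      simp only [smul_eq_mul]
      ring
    rw [map_mul, th_mul, hp, e0, e1, map_add, map_add, map_mul, map_mul, map_mul, map_mul]
    fin_cases i
    · have h1 : pderiv (0 : Fin 2) (X 0 : B k) = 1 := pderiv_X_self 0
      have h2 : pderiv (1 : Fin 2) (X 0 : B k) = 0 := pderiv_X_of_ne (by decide)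
      simp only [Fin.zero_eta, Fin.isValue]
      rw [h1, h2, map_one, map_zero]
      ring
    · have h1 : pderiv (0 : Fin 2) (X 1 : B k) = 0 := pderiv_X_of_ne (by decide)
      have h2 : pderiv (1 : Fin 2) (X 1 : B k) = 1 := pderiv_X_self 1
      simp only [Fin.mk_one, Fin.isValue]
      rw [h1, h2, map_one, map_zero]
      ring

end

theorem ncn (k : Type) [Field k] [IsAlgClosed k] [CharZero k] :
    Pool.Agent.H922R2.OPC.S_NCN k := by
  intro hS n φ hn P Q hJ μ c d
  rintro ⟨hP, hQ⟩
  obtain ⟨R, hR⟩ := hS μ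
  set ε : B k →+* HahnSeries ℤ k := R.comp (ev n φ).toRingHom with hε
  have hεh : ∀ h, ε h = sp μ (ev n φ h) := fun h => hR _
  have hC : ∀ a : k, th (ε (MvPolynomial.C a)) = 0 := by
    intro a
    rw [hεh]
    have h1 : ev n φ (MvPolynomial.C a) = algebraMap k (L k) a := by
      unfold ev
      rw [aeval_C]
    rw [h1]
    have h2 : sp μ (algebraMap k (L k) a) = (HahnSeries.C a : HahnSeries ℤ k) := by
      ext m
      unfold sp
      rw [HahnSeries.C_apply]
      show Polynomial.evalRingHom μ ((algebraMap k (L k) a).coeff m) = _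
      have h3 : (algebraMap k (L k) a) = (HahnSeries.C (Polynomial.C a) : HahnSeries ℤ (Polynomial k)) := by
        rw [HahnSeries.algebraMap_apply', PowerSeries.algebraMap_apply, HahnSeries.ofPowerSeries_C]
        rfl
      rw [h3, HahnSeries.C_apply]
      by_cases hm : m = 0
      · subst hm
        rw [HahnSeries.coeff_single_same, HahnSeries.coeff_single_same]
        simp
      · rw [HahnSeries.coeff_single_of_ne hm, HahnSeries.coeff_single_of_ne hm, map_zero]
    rw [h2]
    exact th_C a
  have hX : ε (X 0) = (HahnSeries.single (-(n : ℤ)) 1 : HahnSeries ℤ k) := by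
    rw [hεh]
    have h1 : ev n φ (X 0) = tp (-(n : ℤ)) := by
      unfold ev
      rw [aeval_X]
      rfl
    rw [h1]
    ext m
    unfold sp tp
    show Polynomial.evalRingHom μ ((HahnSeries.single (-(n : ℤ)) (1 : Polynomial k)).coeff m) = _
    by_cases hm : m = -(n : ℤ)
    · subst hm
      rw [HahnSeries.coeff_single_same, HahnSeries.coeff_single_same, map_one]
    · rw [HahnSeries.coeff_single_of_ne hm, HahnSeries.coeff_single_of_ne hm, map_zero]
  have hX0 : th (ε (X 0)) ≠ 0 := by
    intro h
    have h1 : (th (ε (X 0))).coeff (-(n : ℤ)) = (0 : HahnSeries ℤ k).coeff (-(n : ℤ)) := by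
      rw [h]
    rw [th_coeff, hX, HahnSeries.coeff_single_same, HahnSeries.coeff_zero, mul_one] at h1
    have h2 : (n : k) = 0 := by
      have h3 : (((-(n : ℤ) : ℤ)) : k) = -(n : k) := by push_cast; ring
      rw [h3, neg_eq_zero] at h1
      exact h1
    exact hn.ne' (by exact_mod_cast h2)
  have hP' : ε P = (HahnSeries.C c : HahnSeries ℤ k) := by rw [hεh]; exact hP
  have hQ' : ε Q = (HahnSeries.C d : HahnSeries ℤ k) := by rw [hεh]; exact hQ
  have h1 := th_chain ε hC P
  have h2 := th_chain ε hC Q
  rw [hP', th_C] at h1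
  rw [hQ', th_C] at h2
  have h3 : ε (jac P Q) * th (ε (X 0)) = 0 := by
    unfold jac
    rw [map_sub, map_mul, map_mul]
    linear_combination (-(ε (pderiv 1 Q))) * h1 + ε (pderiv 1 P) * h2
  exact hX0 ((hJ.map ε).mul_right_eq_zero.1 h3)

end Pool.Agent.H130.OPCN
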